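import Pool.Agent.Helper76.ND.StC

/-!
# Project ND, module Ex: the remainder is exponentially small
-/

set_option autoImplicit false
set_option exponentiation.threshold 1000

namespace Pool.Agent.Helper13.ND

open Pool.Agent.Helper76.ND Finset

theorem qs_nonneg (n s : ℕ) : 0 ≤ qs n s := by
  cases n with
  | zero => cases s with
    | zero => simp [qs]
    | succ s => simp [qs]
  | succ n => cases s with
    | zero => simp [qs]
    | succ s =>
      simp only [qs]
      positivity

theorem num1 : 200 * Real.log 3 ≤ 317 * Real.log 2 := by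
  have h1 : ((3 : ℝ)) ^ 200 ≤ 2 ^ 317 := by norm_num
  have h2 := Real.log_le_log (by positivity) h1
  rw [Real.log_pow, Real.log_pow] at h2
  push_cast at h2
  exact h2

theorem num2 : 317 * Real.log (100 / 99) < 160 * Real.log (101 / 99) := by
  have h1 : ((100 : ℝ)) ^ 317 * 99 ^ 160 < 101 ^ 160 * 99 ^ 317 := by norm_num
  have h2 := Real.log_lt_log (by positivity) h1
  rw [Real.log_mul (by positivity) (by positivity), Real.log_mul (by positivity) (by positivity),
    Real.log_pow, Real.log_pow, Real.log_pow, Real.log_pow] at h2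
  rw [Real.log_div (by norm_num) (by norm_num), Real.log_div (by norm_num) (by norm_num)]
  push_cast at h2
  linarith

theorem hEx (hGen : StGen) : StEx := by
  set a : ℝ := Real.log (100 / 99) with ha
  set b : ℝ := Real.log (101 / 99) with hb
  have ha0 : 0 < a := Real.log_pos (by norm_num)
  have hb0 : 0 < b := Real.log_pos (by norm_num)
  have hab : 317 * a < 160 * b := num2
  set δ : ℝ := 3 * (160 * b - 317 * a) / 200 with hδ
  have hδ0 : 0 < δ := by
    rw [hδ]
    have : 0 < 160 * b - 317 * a := by linarith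
    positivity
  set c : ℝ := min 1 δ with hc
  have hc0 : 0 < c := lt_min one_pos hδ0
  set C0 : ℝ := Real.exp (8 * a + 12 / 5 * b) with hC0
  refine ⟨C0 / c, by positivity, fun k Tt hT => ?_⟩
  set J := 4 * k / 5 with hJ
  have hTt : (Tt : ℝ) ≤ 317 / 200 * (3 * k + 2) := by
    have h1 := Real.log_le_log (by positivity) hT
    rw [Real.log_pow, Real.log_pow] at h1
    push_cast at h1
    have hl2 : 0 < Real.log 2 := Real.log_pos (by norm_num)
    have h2 := mul_le_mul_of_nonneg_left num1 (show (0 : ℝ) ≤ 3 * k + 2 by positivity)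
    have h3 : (Tt : ℝ) * Real.log 2 ≤ (317 / 200 * (3 * k + 2)) * Real.log 2 := by nlinarith
    exact le_of_mul_le_mul_right h3 hl2
  have hJ' : (12 * (k : ℝ) - 12) / 5 ≤ 3 * J := by
    have h1 : 4 * k ≤ 5 * J + 4 := by omega
    have h2 : (4 : ℝ) * k ≤ 5 * J + 4 := by exact_mod_cast h1
    linarith
  -- the bound L
  set L : ℝ := (100 / 99) ^ (Tt + 4) * (99 / 101) ^ (3 * J) with hL
  have hsum : ∑ B ∈ range (Tt + 5), qs (3 * J) B ≤ L := by
    have h1 := hGen (3 * J) (Tt + 5) (99 / 100) (by norm_num) (by norm_num)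
    have e : ((99 : ℝ) / 100) / (2 - 99 / 100) = 99 / 101 := by norm_num
    rw [e] at h1
    have h2 : ∀ B ∈ range (Tt + 5), qs (3 * J) B ≤
        (100 / 99 : ℝ) ^ (Tt + 4) * (qs (3 * J) B * (99 / 100 : ℝ) ^ B) := by
      intro B hB
      rw [Finset.mem_range] at hB
      have h3 : (99 / 100 : ℝ) ^ (Tt + 4) ≤ (99 / 100 : ℝ) ^ B :=
        pow_le_pow_of_le_one (by norm_num) (by norm_num) (by omega)
      have h4 : (100 / 99 : ℝ) ^ (Tt + 4) * (99 / 100 : ℝ) ^ (Tt + 4) = 1 := by
        rw [← mul_pow]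
        norm_num
      have h5 : 1 ≤ (100 / 99 : ℝ) ^ (Tt + 4) * (99 / 100 : ℝ) ^ B := by
        rw [← h4]
        exact mul_le_mul_of_nonneg_left h3 (by positivity)
      have h6 := mul_le_mul_of_nonneg_left h5 (qs_nonneg (3 * J) B)
      rw [mul_one] at h6
      refine h6.trans (le_of_eq ?_)
      ring
    refine (Finset.sum_le_sum h2).trans ?_
    rw [← Finset.mul_sum]
    exact mul_le_mul_of_nonneg_left h1 (by positivity)
  have hLe : L = Real.exp ((Tt + 4) * a - 3 * J * b) := by
    have e1 : (99 / 101 : ℝ) = Real.exp (-b) := by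
      rw [Real.exp_neg, hb, Real.exp_log (by norm_num)]
      norm_num
    have e2 : (100 / 99 : ℝ) = Real.exp a := by
      rw [ha, Real.exp_log (by norm_num)]
    rw [hL, e1, e2, ← Real.exp_nat_mul, ← Real.exp_nat_mul, ← Real.exp_add]
    congr 1
    push_cast
    ring
  have hLb : L ≤ C0 * Real.exp (-(δ * k)) := by
    rw [hLe, hC0, ← Real.exp_add]
    refine Real.exp_le_exp.2 ?_
    have h1 := mul_le_mul_of_nonneg_right hTt ha0.le
    have h2 := mul_le_mul_of_nonneg_right hJ' hb0.le
    rw [hδ]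
    nlinarith
  have hk0 : (0 : ℝ) ≤ k := Nat.cast_nonneg k
  have hexp : Real.exp (-(δ * k)) ≤ 1 / c * ((k : ℝ) + 1)⁻¹ := by
    have h1 := Real.add_one_le_exp (δ * k)
    have h2 : c * ((k : ℝ) + 1) ≤ δ * k + 1 := by
      have h3 : c * k ≤ δ * k := mul_le_mul_of_nonneg_right (min_le_right _ _) hk0
      have h4 : c ≤ 1 := min_le_left _ _
      linarith
    have h3 : 0 < c * ((k : ℝ) + 1) := by positivity
    rw [Real.exp_neg, one_div, ← mul_inv]
    exact inv_anti₀ h3 (h2.trans h1)
  have hk1 : (1 : ℝ) ≤ (k : ℝ) + 1 := by linarith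
  have h7 : ((k : ℝ) + 1)⁻¹ ≤ ((k : ℝ) + 1) ^ (-(13 / 25) : ℝ) := by
    rw [← Real.rpow_neg_one]
    exact Real.rpow_le_rpow_of_exponent_le hk1 (by norm_num)
  have hC00 : 0 < C0 := Real.exp_pos _
  have h8 : L ≤ C0 / c * ((k : ℝ) + 1)⁻¹ := by
    refine hLb.trans ((mul_le_mul_of_nonneg_left hexp hC00.le).trans (le_of_eq ?_))
    ring
  exact hsum.trans (h8.trans (mul_le_mul_of_nonneg_left h7 (by positivity)))

end Pool.Agent.Helper13.ND
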